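import Pool.Agent.W136.K9.Defs

/-!
Subtask K9-DRAW (helper45, for helper136): an explicit straight-line biplanar drawing of `K₉` with
one crossing.
-/

set_option autoImplicit false

namespace Pool.Agent.W45.K9

open Pool.Agent.W136.K9

/-- abscissae -/
def PX (i : Fin 2) (u : Fin 9) : ℤ :=
  if i = 0 then ![0, 8, 0, 8, 5, 2, 4, 6, 11] u else ![9, 11, 5, 6, 9, 3, 6, 1, 5] u

/-- ordinates -/
def PY (i : Fin 2) (u : Fin 9) : ℤ :=
  if i = 0 then ![5, 8, 7, 4, 4, 1, 6, 6, 5] u else ![1, 0, 7, 5, 5, -1, 8, 6, 11] u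

/-- the edges of colour `0` -/
def E0 : List (Fin 9 × Fin 9) :=
  [(0, 2), (1, 2), (1, 3), (1, 4), (1, 6), (1, 7), (1, 8), (2, 4), (2, 5), (2, 6), (3, 4), (3, 5),
    (4, 5), (4, 6), (4, 7), (5, 6), (5, 8), (6, 7)]

/-- the colouring -/
def cc (u v : Fin 9) : Fin 2 := if (u, v) ∈ E0 ∨ (v, u) ∈ E0 then 0 else 1

lemma cc_symm (u v : Fin 9) : cc u v = cc v u := by
  unfold cc
  simp only [or_comm]

/-- orientation determinant -/
def o (i : Fin 2) (a b c : Fin 9) : ℤ :=
  (PX i b - PX i a) * (PY i c - PY i a) - (PY i b - PY i a) * (PX i c - PX i a)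

/-- the eight crossing tuples -/
def L8 : List (Fin 9 × Fin 9 × Fin 9 × Fin 9) :=
  [(2, 4, 5, 6), (2, 4, 6, 5), (4, 2, 5, 6), (4, 2, 6, 5),
    (5, 6, 2, 4), (5, 6, 4, 2), (6, 5, 2, 4), (6, 5, 4, 2)]

/-- separation test -/
def sepT (i : Fin 2) (a b c d : Fin 9) : Prop :=
  0 ≤ o i a b c * o i a b d ∧ ¬ (o i a b c = 0 ∧ o i a b d = 0)

instance (i : Fin 2) (a b c d : Fin 9) : Decidable (sepT i a b c d) := by
  unfold sepT; infer_instance

/-- the boolean test -/
def chk (i : Fin 2) (a b c d : Fin 9) : Bool :=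
  decide (a = b) || decide (c = d) || !(decide (cc a b = i)) || !(decide (cc c d = i)) ||
    (decide (a = c) && decide (b = d)) || (decide (a = d) && decide (b = c)) ||
    decide (sepT i a b c d) || decide (sepT i c d a b) ||
    (decide (i = 0) && decide ((a, b, c, d) ∈ L8))

lemma chk_all : ∀ (i : Fin 2) (a b c d : Fin 9), chk i a b c d = true := by
  decide +kernel

lemma check1 (i : Fin 2) (a b c d : Fin 9) (h1 : a ≠ b) (h2 : c ≠ d) (h3 : cc a b = i)
    (h4 : cc c d = i) (h5 : ¬ (a = c ∧ b = d)) (h6 : ¬ (a = d ∧ b = c)) :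
    sepT i a b c d ∨ sepT i c d a b ∨ (i = 0 ∧ (a, b, c, d) ∈ L8) := by
  have h := chk_all i a b c d
  unfold chk at h
  simp only [Bool.or_eq_true, Bool.and_eq_true, decide_eq_true_eq, Bool.not_eq_true',
    decide_eq_false_iff_not] at h
  tauto

lemma check2 : ∀ (i : Fin 2) (a b w : Fin 9), a ≠ b → w ≠ a → w ≠ b → o i a b w ≠ 0 := by
  decide +kernel

lemma check3 : ∀ (i : Fin 2) (a b : Fin 9), a ≠ b → PX i a ≠ PX i b ∨ PY i a ≠ PY i b := by
  decide +kernel

/-- the vertices -/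
noncomputable def pp (i : Fin 2) (u : Fin 9) : ℂ := ⟨(PX i u : ℝ), (PY i u : ℝ)⟩

/-- the edges -/
noncomputable def gg (i : Fin 2) (u v : Fin 9) (t : ℝ) : ℂ :=
  ⟨(1 - t) * (PX i u : ℝ) + t * (PX i v : ℝ), (1 - t) * (PY i u : ℝ) + t * (PY i v : ℝ)⟩

/-- the real orientation determinant of `a, b` and a point -/
noncomputable def oR (i : Fin 2) (a b : Fin 9) (z : ℂ) : ℝ :=
  ((PX i b : ℝ) - PX i a) * (z.im - PY i a) - ((PY i b : ℝ) - PY i a) * (z.re - PX i a)

lemma oR_self (i : Fin 2) (a b : Fin 9) (t : ℝ) : oR i a b (gg i a b t) = 0 := by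
  unfold oR gg
  simp only
  ring

lemma oR_pp (i : Fin 2) (a b w : Fin 9) : oR i a b (pp i w) = (o i a b w : ℝ) := by
  unfold oR pp o
  push_cast
  ring

lemma oR_gg (i : Fin 2) (a b c d : Fin 9) (t : ℝ) :
    oR i a b (gg i c d t) = (1 - t) * (o i a b c : ℝ) + t * (o i a b d : ℝ) := by
  unfold oR gg o
  push_cast
  ring

lemma sep_ne {i : Fin 2} {a b c d : Fin 9} (h : sepT i a b c d) {t s : ℝ} (ht0 : 0 < t)
    (ht1 : t < 1) : gg i c d t ≠ gg i a b s := by
  intro he
  have h1 := oR_gg i a b c d t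
  rw [he, oR_self] at h1
  obtain ⟨h2, h3⟩ := h
  have h2R : (0 : ℝ) ≤ (o i a b c : ℝ) * (o i a b d : ℝ) := by exact_mod_cast h2
  set x : ℝ := (o i a b c : ℝ) with hx
  set y : ℝ := (o i a b d : ℝ) with hy
  have h4 : (1 - t) * x = -(t * y) := by linarith
  have h5 : (1 - t) * x * x = -(t * (x * y)) := by
    rw [h4]; ring
  have h6 : (1 - t) * x * x ≤ 0 := by
    rw [h5]
    have := mul_nonneg ht0.le h2R
    linarith
  have h7 : x = 0 := by
    by_contra hne
    have : 0 < (1 - t) * (x * x) := mul_pos (by linarith) (mul_self_pos.mpr hne)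
    linarith
  have h8 : y = 0 := by
    rw [h7, mul_zero] at h4
    have h9 : t * y = 0 := by linarith
    rcases mul_eq_zero.mp h9 with h | h
    · exact absurd h ht0.ne'
    · exact h
  apply h3
  constructor
  · have : ((o i a b c : ℤ) : ℝ) = ((0 : ℤ) : ℝ) := by
      rw [Int.cast_zero]; exact h7
    exact_mod_cast this
  · have : ((o i a b d : ℤ) : ℝ) = ((0 : ℤ) : ℝ) := by
      rw [Int.cast_zero]; exact h8
    exact_mod_cast this

lemma gg_inj {i : Fin 2} {u v : Fin 9} (h : u ≠ v) {s t : ℝ} (hst : gg i u v s = gg i u v t) :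
    s = t := by
  have hre := congrArg Complex.re hst
  have him := congrArg Complex.im hst
  unfold gg at hre him
  simp only at hre him
  rcases check3 i u v h with hx | hy
  · have h1 : ((PX i u : ℤ) : ℝ) - PX i v ≠ 0 := by
      rw [sub_ne_zero]
      exact_mod_cast hx
    have h2 : (s - t) * (((PX i u : ℤ) : ℝ) - PX i v) = 0 := by linarith
    rcases mul_eq_zero.mp h2 with h | h
    · linarith
    · exact absurd h h1
  · have h1 : ((PY i u : ℤ) : ℝ) - PY i v ≠ 0 := by
      rw [sub_ne_zero]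
      exact_mod_cast hy
    have h2 : (s - t) * (((PY i u : ℤ) : ℝ) - PY i v) = 0 := by linarith
    rcases mul_eq_zero.mp h2 with h | h
    · linarith
    · exact absurd h h1

lemma gg_zero (i : Fin 2) (u v : Fin 9) : gg i u v 0 = pp i u := by
  unfold gg pp
  simp

lemma gg_one (i : Fin 2) (u v : Fin 9) : gg i u v 1 = pp i v := by
  unfold gg pp
  simp

lemma gg_rev (i : Fin 2) (u v : Fin 9) (t : ℝ) : gg i v u t = gg i u v (1 - t) := by
  unfold gg
  apply Complex.ext
  · simp only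
    ring
  · simp only
    ring

lemma pp_inj (i : Fin 2) : Function.Injective (pp i) := by
  intro a b hab
  by_contra hne
  have hre := congrArg Complex.re hab
  have him := congrArg Complex.im hab
  unfold pp at hre him
  simp only [Int.cast_inj] at hre him
  rcases check3 i a b hne with h | h
  · exact h hre
  · exact h him

/-- the crossing point -/
noncomputable def x0 : ℂ := ⟨110 / 31, 151 / 31⟩

lemma cross_pt {a b c d : Fin 9} (h : (a, b, c, d) ∈ L8) {s t : ℝ}
    (hst : gg 0 a b s = gg 0 c d t) : gg 0 a b s = x0 := by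
  have hre := congrArg Complex.re hst
  have him := congrArg Complex.im hst
  unfold L8 at h
  simp only [List.mem_cons, Prod.mk.injEq, List.not_mem_nil, or_false] at h
  unfold gg at hre him ⊢
  simp only at hre him
  unfold x0
  have x2 : PX 0 2 = 0 := rfl
  have x4 : PX 0 4 = 5 := rfl
  have x5 : PX 0 5 = 2 := rfl
  have x6 : PX 0 6 = 4 := rfl
  have y2 : PY 0 2 = 7 := rfl
  have y4 : PY 0 4 = 4 := rfl
  have y5 : PY 0 5 = 1 := rfl
  have y6 : PY 0 6 = 6 := rfl
  rcases h with ⟨rfl, rfl, rfl, rfl⟩ | ⟨rfl, rfl, rfl, rfl⟩ | ⟨rfl, rfl, rfl, rfl⟩ |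
    ⟨rfl, rfl, rfl, rfl⟩ | ⟨rfl, rfl, rfl, rfl⟩ | ⟨rfl, rfl, rfl, rfl⟩ | ⟨rfl, rfl, rfl, rfl⟩ |
    ⟨rfl, rfl, rfl, rfl⟩ <;>
  · rw [x2, x4, x5, x6] at hre
    rw [y2, y4, y5, y6] at him
    push_cast at hre him
    apply Complex.ext
    · simp only [x2, x4, x5, x6]
      push_cast
      linarith
    · simp only [y2, y4, y5, y6]
      push_cast
      linarith

theorem draw_val : Val (⊤ : SimpleGraph (Fin 9)) cc pp gg := by
  refine ⟨fun u v _ => cc_symm u v, pp_inj, ?_⟩
  intro i u v huv _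
  rw [SimpleGraph.top_adj] at huv
  refine ⟨?_, ?_, gg_zero i u v, gg_one i u v, fun t _ _ => gg_rev i u v t, ?_⟩
  · apply Continuous.continuousOn
    have h1 : (fun t : ℝ => gg i u v t) = fun t : ℝ =>
        (((1 - t) * (PX i u : ℝ) + t * (PX i v : ℝ) : ℝ) : ℂ) +
        (((1 - t) * (PY i u : ℝ) + t * (PY i v : ℝ) : ℝ) : ℂ) * Complex.I := by
      funext t
      rw [← Complex.mk_eq_add_mul_I]
      rfl
    change Continuous (fun t : ℝ => gg i u v t)
    rw [h1]
    fun_prop
  · intro s _ t _ hst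
    exact gg_inj huv hst
  · intro t ht0 ht1 w hw
    by_cases hwu : w = u
    · subst hwu
      rw [← gg_zero i w v] at hw
      exact ht0.ne' (gg_inj huv hw)
    · by_cases hwv : w = v
      · subst hwv
        rw [← gg_one i u w] at hw
        exact ht1.ne (gg_inj huv hw)
      · have h1 := oR_self i u v t
        rw [hw, oR_pp] at h1
        have h2 : o i u v w = 0 := by exact_mod_cast h1
        exact check2 i u v w huv hwu hwv h2

/-- the finite set containing the crossing tuples -/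
noncomputable def F8 : Finset (Fin 2 × Fin 9 × Fin 9 × Fin 9 × Fin 9 × ℂ) :=
  open scoped Classical in
  L8.toFinset.image (fun q => ((0 : Fin 2), q.1, q.2.1, q.2.2.1, q.2.2.2, x0))

lemma cr_subset : Cr (⊤ : SimpleGraph (Fin 9)) cc gg ⊆ (F8 : Set _) := by
  classical
  rintro ⟨i, a, b, c, d, x⟩ hx
  simp only [Cr, Set.mem_ofPred_eq, SimpleGraph.top_adj] at hx
  obtain ⟨hab, hcd, h1, h2, h3, h4, ⟨s, hs0, hs1, hs⟩, ⟨t, ht0, ht1, ht⟩⟩ := hx
  have hst : gg i a b s = gg i c d t := hs.trans ht.symm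
  rcases check1 i a b c d hab hcd h1 h2 h3 h4 with h | h | ⟨rfl, h⟩
  · exact absurd hst.symm (sep_ne h ht0 ht1)
  · exact absurd hst (sep_ne h hs0 hs1)
  · have hx0 : x = x0 := by
      rw [← hs]
      exact cross_pt h hst
    subst hx0
    unfold F8
    rw [Finset.coe_image, Set.mem_image]
    exact ⟨(a, b, c, d), by simpa using h, rfl⟩

theorem draw : S_draw := by
  classical
  refine ⟨cc, pp, gg, draw_val, F8.finite_toSet.subset cr_subset, ?_⟩
  refine (Set.ncard_le_ncard cr_subset F8.finite_toSet).trans ?_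
  rw [Set.ncard_coe_finset]
  unfold F8
  refine Finset.card_image_le.trans ?_
  refine (List.toFinset_card_le _).trans ?_
  decide

end Pool.Agent.W45.K9
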